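import Pool.Agent.Y690.PP.Stm2
import Pool.Agent.Y901.PP.Rec
import Pool.Agent.Y944.PP.Mult
import Pool.Agent.Y427.PP.Fac

/-!
# PP2-DSC1: the first step of the descent on `D y² = x³ - x`, `D = (1 + i) ∏ A`, over `ℚ(i)`
-/

set_option autoImplicit false

open Finset

namespace Pool.Agent.Y547.PP

open Pool.Agent.Y690.PP Pool.Agent.Y690.PP.Fn
open Pool.Agent.Y427.PP (prm_iff prm_one prm_mul prm_cancel nm_unit nm_zero unit_cases prm_unit
  prm_assoc not_dvd_prod)

/-! ## Squarefree part -/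

theorem sqf_decomp : ∀ n : ℕ, ∀ c : G, c ≠ 0 → c.norm.natAbs ≤ n →
    ∃ d f, c = d * f ^ 2 ∧ Squarefree d := by
  intro n
  induction n with
  | zero =>
    intro c hc hn
    exfalso
    have : c.norm.natAbs ≠ 0 := by
      intro h
      exact hc ((GaussianInt.norm_eq_zero).1 (Int.natAbs_eq_zero.1 h))
    omega
  | succ n ih =>
    intro c hc hn
    by_cases hs : Squarefree c
    · exact ⟨c, 1, by ring, hs⟩
    · unfold Squarefree at hs
      push Not at hs
      obtain ⟨x, ⟨c', hc'⟩, hx⟩ := hs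
      have hx0 : x ≠ 0 := by
        rintro rfl
        apply hc
        rw [hc']; ring
      have hc0 : c' ≠ 0 := by
        rintro rfl
        apply hc
        rw [hc', mul_zero]
      have h1 : c.norm.natAbs = x.norm.natAbs * x.norm.natAbs * c'.norm.natAbs := by
        rw [hc', Zsqrtd.norm_mul, Zsqrtd.norm_mul, Int.natAbs_mul, Int.natAbs_mul]
      have h2 : x.norm.natAbs ≠ 1 := fun h => hx (Zsqrtd.norm_eq_one_iff.1 h)
      have h3 : x.norm.natAbs ≠ 0 := fun h => hx0 ((GaussianInt.norm_eq_zero).1 (Int.natAbs_eq_zero.1 h))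
      have h4 : c'.norm.natAbs ≠ 0 := fun h => hc0 ((GaussianInt.norm_eq_zero).1 (Int.natAbs_eq_zero.1 h))
      have h5 : c'.norm.natAbs < c.norm.natAbs := by
        rw [h1]
        have h6 : 2 ≤ x.norm.natAbs := by omega
        have h7 : 0 < c'.norm.natAbs := by omega
        have h8 : 2 * 2 * c'.norm.natAbs ≤ x.norm.natAbs * x.norm.natAbs * c'.norm.natAbs :=
          Nat.mul_le_mul_right _ (Nat.mul_le_mul h6 h6)
        omega
      obtain ⟨d, f, hdf, hd⟩ := ih c' hc0 (by omega)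
      exact ⟨d, x * f, by rw [hc', hdf]; ring, hd⟩

section field
variable {F : Type} [Field F] [Algebra G F] [IsFractionRing G F]

theorem A_inj : Function.Injective (algebraMap G F) := IsFractionRing.injective G F

theorem A_ne {a : G} (h : a ≠ 0) : algebraMap G F a ≠ 0 := by
  rwa [Ne, map_eq_zero_iff _ A_inj]

theorem sq_int {y : F} {c : G} (h : y ^ 2 = algebraMap G F c) : ∃ Y : G, algebraMap G F Y = y := by
  apply IsIntegrallyClosed.exists_algebraMap_eq_of_isIntegral_pow (n := 2) (by norm_num)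
  rw [h]
  exact isIntegral_algebraMap

/-- first step: the squarefree part of `x` -/
theorem decomp0 {D : G} (hD : D ≠ 0) {x y : F} (hy : y ≠ 0)
    (hxy : y ^ 2 = x ^ 3 - (algebraMap G F D) ^ 2 * x) :
    ∃ (d f b Y : G), Squarefree d ∧ (∀ ρ : G, Prime ρ → ρ ∣ d → ρ ∣ D) ∧ IsCoprime f b ∧
      f ≠ 0 ∧ b ≠ 0 ∧ x = algebraMap G F d * (algebraMap G F f / algebraMap G F b) ^ 2 ∧
      Y ^ 2 = d * (d ^ 2 * f ^ 4 - D ^ 2 * b ^ 4) := by
  classical
  have hx : x ≠ 0 := by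
    rintro rfl
    apply hy
    have : y ^ 2 = 0 := by rw [hxy]; ring
    exact pow_eq_zero_iff (by norm_num) |>.1 this
  obtain ⟨a, m, hm, hxa⟩ := IsFractionRing.div_surjective (A := G) x
  have hm0 : m ≠ 0 := nonZeroDivisors.ne_zero hm
  have ha0 : a ≠ 0 := by
    rintro rfl
    apply hx
    rw [← hxa, map_zero, zero_div]
  have hc0 : a * m ≠ 0 := mul_ne_zero ha0 hm0
  obtain ⟨d, h, hdh, hd⟩ := sqf_decomp _ (a * m) hc0 le_rfl
  have hh0 : h ≠ 0 := by
    rintro rfl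
    apply hc0
    rw [hdh]; ring
  have hd0 : d ≠ 0 := hd.ne_zero
  obtain ⟨f, b', hfb, hfb'⟩ := IsFractionRing.exists_reduced_fraction (A := G)
    (algebraMap G F h / algebraMap G F m)
  set b : G := (b' : G) with hb
  have hb0 : b ≠ 0 := nonZeroDivisors.ne_zero b'.2
  have hw : algebraMap G F h / algebraMap G F m = algebraMap G F f / algebraMap G F b := by
    rw [← hfb', IsFractionRing.mk'_eq_div]
  have hcop : IsCoprime f b := hfb.isCoprime
  have hAm := A_ne (F := F) hm0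
  have hAb := A_ne (F := F) hb0
  have hAh := A_ne (F := F) hh0
  have hf0 : f ≠ 0 := by
    rintro rfl
    rw [map_zero, zero_div] at hw
    exact (div_ne_zero hAh hAm) hw
  have hAf := A_ne (F := F) hf0
  have hxd : x = algebraMap G F d * (algebraMap G F f / algebraMap G F b) ^ 2 := by
    rw [← hw, ← hxa]
    have h1 := congrArg (algebraMap G F) hdh
    rw [map_mul, map_mul, map_pow] at h1
    field_simp
    linear_combination h1
  obtain ⟨Y, hY⟩ : ∃ Y : G, Y ^ 2 = d * (d ^ 2 * f ^ 4 - D ^ 2 * b ^ 4) := by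
    have h1 : (y * (algebraMap G F b) ^ 3 / algebraMap G F f) ^ 2 =
        algebraMap G F (d * (d ^ 2 * f ^ 4 - D ^ 2 * b ^ 4)) := by
      rw [div_pow, mul_pow, hxy, hxd]
      simp only [map_mul, map_sub, map_pow]
      field_simp
    obtain ⟨Y, hY⟩ := sq_int h1
    refine ⟨Y, ?_⟩
    apply A_inj (F := F)
    rw [map_pow, hY, h1]
  refine ⟨d, f, b, Y, hd, ?_, hcop, hf0, hb0, hxd, hY⟩
  intro ρ hρ hρd
  by_contra hρD
  obtain ⟨d', hd'⟩ := hρd
  have hnd : ¬ ρ ∣ d' := by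
    rintro ⟨e, he⟩
    exact hρ.not_isUnit (hd ρ ⟨e, by rw [hd', he]; ring⟩)
  have h1 : ρ ∣ Y := by
    apply hρ.dvd_of_dvd_pow (n := 2)
    rw [hY, hd']
    exact (dvd_mul_right _ _).mul_right _
  obtain ⟨Y1, hY1⟩ := h1
  have h2 : ρ * Y1 ^ 2 = d' * (d ^ 2 * f ^ 4 - D ^ 2 * b ^ 4) := by
    apply mul_left_cancel₀ hρ.ne_zero
    have : ρ * (d' * (d ^ 2 * f ^ 4 - D ^ 2 * b ^ 4)) = Y ^ 2 := by rw [hY, hd']; ring
    rw [this, hY1]
    ring
  have h3 : ρ ∣ b := by
    have h4 : ρ ∣ d' * (d ^ 2 * f ^ 4 - D ^ 2 * b ^ 4) := by rw [← h2]; exact dvd_mul_right _ _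
    have h5 := (hρ.dvd_or_dvd h4).resolve_left hnd
    have h6 : ρ ∣ D ^ 2 * b ^ 4 := by
      have h7 : ρ ∣ d ^ 2 * f ^ 4 := by
        rw [hd']
        exact (dvd_pow (dvd_mul_right ρ d') (by norm_num)).mul_right _
      have h8 := dvd_sub h7 h5
      rwa [sub_sub_cancel] at h8
    rcases hρ.dvd_or_dvd h6 with h7 | h7
    · exact absurd (hρ.dvd_of_dvd_pow h7) hρD
    · exact hρ.dvd_of_dvd_pow h7
  obtain ⟨b1, hb1⟩ := h3
  have hnf : ¬ ρ ∣ f := by
    intro h4
    exact hρ.not_isUnit (hcop.isUnit_of_dvd' h4 ⟨b1, hb1⟩)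
  have h4 : Y1 ^ 2 = ρ * (d' * (d' ^ 2 * f ^ 4 - ρ ^ 2 * (D ^ 2 * b1 ^ 4))) := by
    apply mul_left_cancel₀ hρ.ne_zero
    rw [h2, hd', hb1]
    ring
  have h5 : ρ ∣ Y1 := hρ.dvd_of_dvd_pow (n := 2) (by rw [h4]; exact dvd_mul_right _ _)
  obtain ⟨Y2, hY2⟩ := h5
  have h6 : ρ ∣ d' * (d' ^ 2 * f ^ 4 - ρ ^ 2 * (D ^ 2 * b1 ^ 4)) := by
    refine ⟨Y2 ^ 2, ?_⟩
    apply mul_left_cancel₀ hρ.ne_zero
    rw [← h4, hY2]
    ring
  have h7 := (hρ.dvd_or_dvd h6).resolve_left hnd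
  have h8 : ρ ∣ d' ^ 2 * f ^ 4 := by
    have h9 : ρ ∣ ρ ^ 2 * (D ^ 2 * b1 ^ 4) := (dvd_pow_self ρ (by norm_num)).mul_right _
    have := dvd_add h7 h9
    rwa [sub_add_cancel] at this
  rcases hρ.dvd_or_dvd h8 with h9 | h9
  · exact hnd (hρ.dvd_of_dvd_pow h9)
  · exact hnf (hρ.dvd_of_dvd_pow h9)

end field

/-! ## The primes dividing `(1 + i) ∏ A` -/

theorem la_prime : Prime la := by
  have h1 : la.norm.natAbs.Prime := by
    have : la.norm.natAbs = 2 := by decide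
    rw [this]
    exact Nat.prime_two
  have hirr : Irreducible la := by
    refine ⟨?_, ?_⟩
    · intro h
      have := Zsqrtd.norm_eq_one_iff.2 h
      rw [this] at h1
      exact Nat.not_prime_one h1
    · intro a b hab
      have h2 : la.norm.natAbs = a.norm.natAbs * b.norm.natAbs := by
        rw [hab, Zsqrtd.norm_mul, Int.natAbs_mul]
      rw [h2] at h1
      rcases Nat.prime_mul_iff.1 h1 with ⟨-, h3⟩ | ⟨-, h3⟩
      · right
        exact Zsqrtd.norm_eq_one_iff.1 h3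
      · left
        exact Zsqrtd.norm_eq_one_iff.1 h3
  exact hirr.prime

theorem la_dvd_iff (a : G) : la ∣ a ↔ (a.re + a.im) % 2 = 0 := by
  constructor
  · rintro ⟨c, rfl⟩
    simp [la]
    omega
  · intro h
    refine ⟨⟨(a.re + a.im) / 2, (a.im - a.re) / 2⟩, ?_⟩
    ext
    · simp [la]
      omega
    · simp [la]
      omega

theorem la_not_dvd_prm {a : G} (h : Prm a) : ¬ la ∣ a := by
  rw [la_dvd_iff]
  rw [prm_iff] at h
  omega

theorem prm_PA (A : Finset Pr) : Prm (PA A) := by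
  classical
  unfold PA
  induction A using Finset.induction_on with
  | empty => rw [prod_empty]; exact prm_one
  | insert p A hp ih =>
    rw [prod_insert hp]
    exact prm_mul p.2.2 ih

theorem not_dvd_PA {p : Pr} {A : Finset Pr} (h : p ∉ A) : ¬ p.1 ∣ PA A := not_dvd_prod p A h

theorem not_dvd_la (p : Pr) : ¬ p.1 ∣ la := by
  intro h
  have h1 := (Prime.dvd_prime_iff_associated p.2.1 la_prime).1 h
  exact la_not_dvd_prm p.2.2 h1.symm.dvd

theorem PA_ne (A : Finset Pr) : PA A ≠ 0 := by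
  unfold PA
  exact prod_ne_zero_iff.2 fun p _ => p.2.1.ne_zero

theorem sq_mod2 {Y : G} (h : ¬ la ∣ Y) : (2 : G) ∣ Y ^ 2 - 1 := by
  rw [la_dvd_iff] at h
  have h1 : (Y.re + Y.im) % 2 = 1 := by omega
  refine ⟨⟨(Y.re * Y.re - Y.im * Y.im - 1) / 2, Y.re * Y.im⟩, ?_⟩
  have h2 : (Y.re * Y.re - Y.im * Y.im - 1) % 2 = 0 := by
    have e : Y.re * Y.re - Y.im * Y.im - 1 = (Y.re + Y.im) * (Y.re - Y.im) - 1 := by ring
    have h3 : (Y.re - Y.im) % 2 = 1 := by omega
    rw [e, Int.sub_emod, Int.mul_emod, h1, h3]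
    norm_num
  ext
  · simp [pow_two]
    omega
  · simp [pow_two]
    ring

/-- the unit is a sign -/
theorem unit_sign {u : G} (hu : IsUnit u) (h : (2 : G) ∣ u - 1) : u ^ 2 = 1 := by
  rcases unit_cases hu with rfl | rfl | rfl | rfl
  · norm_num
  · norm_num
  · exfalso
    obtain ⟨c, hc⟩ := h
    have := congrArg Zsqrtd.re hc
    simp at this
    omega
  · exfalso
    obtain ⟨c, hc⟩ := h
    have := congrArg Zsqrtd.re hc
    simp at this
    omega

theorem PA_sdiff {S A : Finset Pr} [DecidableEq Pr] (h : S ⊆ A) : PA S * PA (A \ S) = PA A := by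
  unfold PA
  rw [mul_comm]
  exact prod_sdiff h

theorem dvd_of_unit_mul {u a b : G} (hu : IsUnit u) (h : a ∣ u * b) : a ∣ b := by
  obtain ⟨v, hv⟩ := hu.exists_left_inv
  have : b = v * (u * b) := by rw [← mul_assoc, hv, one_mul]
  rw [this]
  exact h.mul_left _

/-- the divisors of `(1 + i) ∏ A` -/
theorem struct {A : Finset Pr} {d : G} (hd : Squarefree d)
    (hp : ∀ ρ : G, Prime ρ → ρ ∣ d → ρ ∣ la * PA A) :
    ∃ (S : Finset Pr) (u : G), S ⊆ A ∧ IsUnit u ∧ (d = u * PA S ∨ d = u * la * PA S) := by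
  classical
  set S := A.filter (fun p => p.1 ∣ d) with hS
  have hSA : S ⊆ A := Finset.filter_subset _ _
  have hSd : PA S ∣ d := by
    unfold PA
    refine Finset.prod_dvd_of_coprime ?_ ?_
    · intro i _ j _ hij
      refine (Prime.coprime_iff_not_dvd' i j ?_)
      exact hij
    · intro i hi
      exact (Finset.mem_filter.1 hi).2
  obtain ⟨e, he⟩ := hSd
  have hd0 : d ≠ 0 := hd.ne_zero
  have he0 : e ≠ 0 := by
    rintro rfl
    exact hd0 (by rw [he, mul_zero])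
  have hρ : ∀ ρ : G, Prime ρ → ρ ∣ e → la ∣ ρ := by
    intro ρ hρ hρe
    have h1 : ρ ∣ d := by rw [he]; exact hρe.mul_left _
    rcases hρ.dvd_or_dvd (hp ρ hρ h1) with h2 | h2
    · exact ((Prime.dvd_prime_iff_associated hρ la_prime).1 h2).symm.dvd
    · exfalso
      unfold PA at h2
      obtain ⟨p, hpA, hρp⟩ := (hρ.dvd_finsetProd_iff _).1 h2
      have h3 : p.1 ∣ ρ := ((Prime.dvd_prime_iff_associated hρ p.2.1).1 hρp).symm.dvd
      have h4 : p ∈ S := Finset.mem_filter.2 ⟨hpA, h3.trans h1⟩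
      have h5 : p.1 * p.1 ∣ d := by
        rw [he]
        refine mul_dvd_mul ?_ (h3.trans hρe)
        unfold PA
        exact Finset.dvd_prod_of_mem _ h4
      exact p.2.1.not_isUnit (hd _ h5)
  by_cases hla : la ∣ e
  · obtain ⟨e', he'⟩ := hla
    have hu : IsUnit e' := by
      by_contra hnu
      have hu0 : e' ≠ 0 := by
        rintro rfl
        exact he0 (by rw [he', mul_zero])
      obtain ⟨ρ, hρ1, hρu⟩ := WfDvdMonoid.exists_irreducible_factor hnu hu0
      have h1 := hρ ρ hρ1.prime (by rw [he']; exact hρu.mul_left _)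
      have h2 : la * la ∣ d := by
        rw [he, he']
        exact (mul_dvd_mul_left la (h1.trans hρu)).mul_left _
      exact la_prime.not_isUnit (hd _ h2)
    exact ⟨S, e', hSA, hu, Or.inr (by rw [he, he']; ring)⟩
  · have hu : IsUnit e := by
      by_contra hnu
      obtain ⟨ρ, hρ1, hρu⟩ := WfDvdMonoid.exists_irreducible_factor hnu he0
      exact hla ((hρ ρ hρ1.prime hρu).trans hρu)
    exact ⟨S, e, hSA, hu, Or.inl (by rw [he]; ring)⟩
  where
  Prime.coprime_iff_not_dvd' (i j : Pr) (h : i ≠ j) : IsCoprime i.1 j.1 := by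
    have h1 : ¬ i.1 ∣ j.1 := fun h' =>
      h (Subtype.ext (prm_assoc ((Prime.dvd_prime_iff_associated i.2.1 j.2.1).1 h') i.2.2 j.2.2))
    exact (Irreducible.coprime_iff_not_dvd i.2.1.irreducible).2 h1

/-- removing the squares -/
theorem reduce {d D' f b Y : G} (hd : Squarefree d)
    (h : Y ^ 2 = d * (d ^ 2 * f ^ 4 - (d * D') ^ 2 * b ^ 4)) :
    ∃ Z : G, d * Z ^ 2 = f ^ 4 - D' ^ 2 * b ^ 4 := by
  have hd0 : d ≠ 0 := hd.ne_zero
  have h1 : d ∣ Y := by
    rw [← hd.dvd_pow_iff_dvd (n := 2) (by norm_num), h]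
    exact dvd_mul_right _ _
  obtain ⟨Y1, rfl⟩ := h1
  have h2 : Y1 ^ 2 = d * (f ^ 4 - D' ^ 2 * b ^ 4) := by
    apply mul_left_cancel₀ (pow_ne_zero 2 hd0)
    linear_combination h
  have h3 : d ∣ Y1 := by
    rw [← hd.dvd_pow_iff_dvd (n := 2) (by norm_num), h2]
    exact dvd_mul_right _ _
  obtain ⟨Z, rfl⟩ := h3
  refine ⟨Z, ?_⟩
  apply mul_left_cancel₀ hd0
  linear_combination h2

/-! ## The local conditions -/

theorem qs_sq {p a : G} (hp : Prime p) (h : ¬ p ∣ a) : qs p (a ^ 2) = 1 := by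
  unfold qs
  rw [if_neg (fun h1 => h (hp.dvd_of_dvd_pow h1)), if_pos ⟨a, by rw [pow_two, sub_self]; exact dvd_zero _⟩]

theorem qs_zero {p a : G} : qs p a = 0 ↔ p ∣ a := by
  unfold qs
  constructor
  · intro h
    by_contra h1
    rw [if_neg h1] at h
    split_ifs at h
    exact absurd h one_ne_zero
  · intro h
    rw [if_pos h]

theorem qs_cases {p a : G} (h : ¬ p ∣ a) : qs p a = 1 ∨ qs p a = -1 := by
  unfold qs
  rw [if_neg h]
  split_ifs
  · exact Or.inl rfl
  · exact Or.inr rfl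

theorem qs_one {p : G} (hp : Prime p) : qs p 1 = 1 := by
  have := qs_sq hp (a := 1) (fun h => hp.not_isUnit (isUnit_of_dvd_one h))
  rwa [one_pow] at this

theorem qs_neg_one {p : G} (hp : Prime p) : qs p (-1) = 1 := by
  have h1 : ¬ p ∣ (⟨0, 1⟩ : G) := by
    intro h
    have h2 : p ∣ (⟨0, 1⟩ : G) * (⟨0, -1⟩ : G) := h.mul_right _
    have h3 : (⟨0, 1⟩ : G) * (⟨0, -1⟩ : G) = 1 := by decide
    rw [h3] at h2
    exact hp.not_isUnit (isUnit_of_dvd_one h2)
  have h4 := qs_sq hp h1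
  have h5 : (⟨0, 1⟩ : G) ^ 2 = -1 := by decide
  rwa [h5] at h4

theorem qs_unit {p u : G} (hp : Prime p) (hu : u ^ 2 = 1) : qs p u = 1 := by
  rcases sq_eq_one_iff_of_ne_neg_one' hu with h | h
  · rw [h]; exact qs_one hp
  · rw [h]; exact qs_neg_one hp
  where
  sq_eq_one_iff_of_ne_neg_one' {u : G} (hu : u ^ 2 = 1) : u = 1 ∨ u = -1 := by
    have : (u - 1) * (u + 1) = 0 := by linear_combination hu
    rcases mul_eq_zero.1 this with h | h
    · exact Or.inl (sub_eq_zero.1 h)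
    · exact Or.inr (eq_neg_of_add_eq_zero_left h)

theorem qs_mul {p : G} (hp : Prime p) (hpp : Prm p) (v w : G) : qs p (v * w) = qs p v * qs p w :=
  Pool.Agent.Y944.PP.t_MULT.1 p hp hpp v w

theorem qs_per {p v w : G} (h : p ∣ v - w) : qs p v = qs p w :=
  Pool.Agent.Y944.PP.t_MULT.2.1 p v w h

/-- the two local conditions -/
theorem loc {d D' f b Y : G} (hE : d * Y ^ 2 = f ^ 4 - D' ^ 2 * b ^ 4) (hcop : IsCoprime f b)
    (p : Pr) (hsq : ¬ p.1 * p.1 ∣ d * D') :
    (p.1 ∣ d → qs p.1 D' = 1) ∧ (p.1 ∣ D' → qs p.1 d = 1) := by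
  have hP := p.2.1
  have hm := qs_mul p.2.1 p.2.2
  constructor
  · intro hpd
    have hnD : ¬ p.1 ∣ D' := fun h => hsq (mul_dvd_mul hpd h)
    have h2 : p.1 ∣ f ^ 4 - D' ^ 2 * b ^ 4 := by
      rw [← hE]
      exact hpd.mul_right _
    have hnb : ¬ p.1 ∣ b := by
      intro hb
      have h3 : p.1 ∣ f ^ 4 := by
        have h4 : p.1 ∣ D' ^ 2 * b ^ 4 := (dvd_pow hb (by norm_num)).mul_left _
        have := dvd_add h2 h4
        rwa [sub_add_cancel] at this
      exact hP.not_isUnit (hcop.isUnit_of_dvd' (hP.dvd_of_dvd_pow h3) hb)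
    have hnf : ¬ p.1 ∣ f := by
      intro hf
      have h3 : p.1 ∣ D' ^ 2 * b ^ 4 := by
        have h4 : p.1 ∣ f ^ 4 := dvd_pow hf (by norm_num)
        have := dvd_sub h4 h2
        rwa [sub_sub_cancel] at this
      rcases hP.dvd_or_dvd h3 with h4 | h4
      · exact hnD (hP.dvd_of_dvd_pow h4)
      · exact hnb (hP.dvd_of_dvd_pow h4)
    have e1 : f ^ 4 - D' ^ 2 * b ^ 4 = (D' * b ^ 2 - f ^ 2) * (-(D' * b ^ 2 - (-1) * f ^ 2)) := by ring
    rw [e1] at h2
    have h3 : qs p.1 (D' * b ^ 2) = 1 := by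
      rcases hP.dvd_or_dvd h2 with h4 | h4
      · rw [qs_per h4]
        exact qs_sq hP hnf
      · rw [qs_per ((dvd_neg).1 h4), hm, qs_neg_one hP, one_mul]
        exact qs_sq hP hnf
    rwa [hm, qs_sq hP hnb, mul_one] at h3
  · intro hpD
    have hnd : ¬ p.1 ∣ d := fun h => hsq (mul_dvd_mul h hpD)
    by_cases hf : p.1 ∣ f
    · obtain ⟨f1, hf1⟩ := hf
      obtain ⟨D'', hD''⟩ := hpD
      have hnD'' : ¬ p.1 ∣ D'' := by
        intro h
        apply hsq
        rw [hD'']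
        exact (mul_dvd_mul_left _ h).mul_left _
      have hnb : ¬ p.1 ∣ b := fun h => hP.not_isUnit (hcop.isUnit_of_dvd' ⟨f1, hf1⟩ h)
      have h1 : p.1 ∣ Y := by
        have h2 : p.1 ∣ d * Y ^ 2 := by
          rw [hE, hf1, hD'']
          exact ⟨p.1 ^ 3 * f1 ^ 4 - p.1 * (D'' ^ 2 * b ^ 4), by ring⟩
        exact hP.dvd_of_dvd_pow ((hP.dvd_or_dvd h2).resolve_left hnd)
      obtain ⟨Y1, hY1⟩ := h1
      have h2 : d * Y1 ^ 2 = p.1 ^ 2 * f1 ^ 4 - D'' ^ 2 * b ^ 4 := by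
        apply mul_left_cancel₀ (pow_ne_zero 2 hP.ne_zero)
        have : p.1 ^ 2 * (d * Y1 ^ 2) = d * Y ^ 2 := by rw [hY1]; ring
        rw [this, hE, hf1, hD'']
        ring
      have h3 : p.1 ∣ d * Y1 ^ 2 - (-1) * (D'' * b ^ 2) ^ 2 := by
        rw [h2]
        exact ⟨p.1 * f1 ^ 4, by ring⟩
      have h4 : ¬ p.1 ∣ D'' * b ^ 2 := by
        intro h
        rcases hP.dvd_or_dvd h with h5 | h5
        · exact hnD'' h5
        · exact hnb (hP.dvd_of_dvd_pow h5)
      have h5 := qs_per h3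
      rw [hm, hm, qs_neg_one hP, one_mul, qs_sq hP h4] at h5
      have h6 : ¬ p.1 ∣ Y1 := by
        intro h
        have : qs p.1 (Y1 ^ 2) = 0 := qs_zero.2 (dvd_pow h (by norm_num))
        rw [this, mul_zero] at h5
        exact zero_ne_one h5
      rwa [qs_sq hP h6, mul_one] at h5
    · have h3 : p.1 ∣ d * Y ^ 2 - (f ^ 2) ^ 2 := by
        obtain ⟨D'', hD''⟩ := hpD
        rw [hE, hD'']
        exact ⟨-(p.1 * (D'' ^ 2 * b ^ 4)), by ring⟩
      have h5 := qs_per h3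
      have h4 : ¬ p.1 ∣ f ^ 2 := fun h => hf (hP.dvd_of_dvd_pow h)
      rw [hm, qs_sq hP h4] at h5
      have h6 : ¬ p.1 ∣ Y := by
        intro h
        have : qs p.1 (Y ^ 2) = 0 := qs_zero.2 (dvd_pow h (by norm_num))
        rw [this, mul_zero] at h5
        exact zero_ne_one h5
      rwa [qs_sq hP h6, mul_one] at h5

theorem qs_PA (p : Pr) (T : Finset Pr) : qs p.1 (PA T) = ∏ q ∈ T, qs p.1 q.1 := by
  classical
  unfold PA
  induction T using Finset.induction_on with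
  | empty => rw [prod_empty, prod_empty]; exact qs_one p.2.1
  | insert q T hq ih => rw [prod_insert hq, prod_insert hq, qs_mul p.2.1 p.2.2, ih]

theorem gs_prod (p : Pr) (T : Finset Pr) : ∏ q ∈ T, gs q p = ((qs p.1 (PA T) : ℤ) : ℝ) := by
  rw [qs_PA]
  push_cast
  refine prod_congr rfl fun q _ => ?_
  unfold gs
  rw [Pool.Agent.Y901.PP.Rec.t_REC q.1 p.1 q.2.1 q.2.2 p.2.1 p.2.2]

/-! ## The unit is a sign -/

theorem la_sq : la ^ 2 = 2 * ⟨0, 1⟩ := by decide

theorem la_dvd_two : la ∣ (2 : G) := by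
  rw [la_dvd_iff]
  decide

theorem two_dvd_la_sq : (2 : G) ∣ la ^ 2 := by
  rw [la_sq]
  exact dvd_mul_right _ _

theorem prm_mod2 {P : G} (h : Prm P) : (2 : G) ∣ P - 1 := by
  refine dvd_trans ⟨⟨1, 1⟩, ?_⟩ h
  decide

theorem prm_sq_mod4 {P : G} (h : Prm P) : ∃ z : G, P ^ 2 = 1 + 4 * z := by
  obtain ⟨z, hz⟩ := h
  have h1 : P = 1 + (⟨2, 2⟩ : G) * z := by linear_combination hz
  refine ⟨(⟨1, 1⟩ : G) * z + (⟨0, 2⟩ : G) * z ^ 2, ?_⟩
  have e1 : (2 : G) * ⟨2, 2⟩ = 4 * ⟨1, 1⟩ := by decide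
  have e2 : (⟨2, 2⟩ : G) ^ 2 = 4 * ⟨0, 2⟩ := by decide
  rw [h1]
  linear_combination z * e1 + z ^ 2 * e2

theorem fourth_mod4 {f : G} (h : ¬ la ∣ f) : ∃ z : G, f ^ 4 = 1 + 4 * z := by
  obtain ⟨z, hz⟩ := sq_mod2 h
  refine ⟨z + z ^ 2, ?_⟩
  have h1 : f ^ 2 = 1 + 2 * z := by linear_combination hz
  have : f ^ 4 = (f ^ 2) ^ 2 := by ring
  rw [this, h1]
  ring

theorem unit_sq_cases {u : G} (hu : IsUnit u) : u ^ 2 = 1 ∨ u ^ 2 = -1 := by
  rcases unit_cases hu with rfl | rfl | rfl | rfl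
  · left; decide
  · left; decide
  · right; decide
  · right; decide

theorem not_la_unit {u : G} (hu : IsUnit u) : ¬ la ∣ u := fun h =>
  la_prime.not_isUnit (isUnit_of_dvd_unit h hu)

/-- case `j = 0` -/
theorem sign0 {u u' P P' f b Y : G} (hu : IsUnit u) (hu' : IsUnit u') (hP : Prm P) (hP' : Prm P')
    (hcop : IsCoprime f b) (hE : (u * P) * Y ^ 2 = f ^ 4 - (u' * la * P') ^ 2 * b ^ 4) :
    u ^ 2 = 1 := by
  obtain ⟨k, hk⟩ := prm_mod2 hP
  have hk' : P = 1 + 2 * k := by linear_combination hk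
  obtain ⟨i2, hi2⟩ := two_dvd_la_sq
  by_cases hf : la ∣ f
  · have hb : ¬ la ∣ b := fun h => la_prime.not_isUnit (hcop.isUnit_of_dvd' hf h)
    obtain ⟨g, rfl⟩ := hf
    have h1 : la ∣ Y := by
      have h2 : la ∣ (u * P) * Y ^ 2 := by
        rw [hE]
        exact ⟨la ^ 3 * g ^ 4 - u' ^ 2 * la * P' ^ 2 * b ^ 4, by ring⟩
      rcases la_prime.dvd_or_dvd h2 with h3 | h3
      · rcases la_prime.dvd_or_dvd h3 with h4 | h4
        · exact absurd h4 (not_la_unit hu)
        · exact absurd h4 (la_not_dvd_prm hP)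
      · exact la_prime.dvd_of_dvd_pow h3
    obtain ⟨Z, rfl⟩ := h1
    have h2 : (u * P) * Z ^ 2 = la ^ 2 * g ^ 4 - u' ^ 2 * (P' * b ^ 2) ^ 2 := by
      apply mul_left_cancel₀ (pow_ne_zero 2 la_prime.ne_zero)
      linear_combination hE
    have hnb : ¬ la ∣ P' * b ^ 2 := by
      intro h
      rcases la_prime.dvd_or_dvd h with h3 | h3
      · exact la_not_dvd_prm hP' h3
      · exact hb (la_prime.dvd_of_dvd_pow h3)
    have hZ : ¬ la ∣ Z := by
      intro h
      have h3 : la ∣ u' ^ 2 * (P' * b ^ 2) ^ 2 := by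
        have h4 : la ∣ la ^ 2 * g ^ 4 := (dvd_pow_self la two_ne_zero).mul_right _
        have h5 : la ∣ (u * P) * Z ^ 2 := (dvd_pow h two_ne_zero).mul_left _
        have h6 := dvd_sub h4 h5
        rwa [h2, sub_sub_cancel] at h6
      rcases la_prime.dvd_or_dvd h3 with h4 | h4
      · exact not_la_unit hu' (la_prime.dvd_of_dvd_pow h4)
      · exact hnb (la_prime.dvd_of_dvd_pow h4)
    obtain ⟨z1, hz1⟩ := sq_mod2 hZ
    obtain ⟨z2, hz2⟩ := sq_mod2 hnb
    apply unit_sign hu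
    have e1 : Z ^ 2 = 1 + 2 * z1 := by linear_combination hz1
    have e2 : (P' * b ^ 2) ^ 2 = 1 + 2 * z2 := by linear_combination hz2
    rw [e1, e2, hk', hi2] at h2
    rcases unit_sq_cases hu' with h3 | h3
    · rw [h3] at h2
      exact ⟨i2 * g ^ 4 - z2 - 1 - u * (z1 + k + 2 * k * z1), by linear_combination h2⟩
    · rw [h3] at h2
      exact ⟨i2 * g ^ 4 + z2 - u * (z1 + k + 2 * k * z1), by linear_combination h2⟩
  · have hY : ¬ la ∣ Y := by
      intro h
      have h3 : la ∣ f ^ 4 := by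
        have h4 : la ∣ (u' * la * P') ^ 2 * b ^ 4 :=
          ⟨u' ^ 2 * la * P' ^ 2 * b ^ 4, by ring⟩
        have h5 : la ∣ (u * P) * Y ^ 2 := (dvd_pow h two_ne_zero).mul_left _
        rw [hE] at h5
        have := dvd_add h5 h4
        rwa [sub_add_cancel] at this
      exact hf (la_prime.dvd_of_dvd_pow h3)
    obtain ⟨z1, hz1⟩ := sq_mod2 hY
    obtain ⟨z2, hz2⟩ := fourth_mod4 hf
    apply unit_sign hu
    have e1 : Y ^ 2 = 1 + 2 * z1 := by linear_combination hz1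
    have e3 : (u' * la * P') ^ 2 * b ^ 4 = 2 * (i2 * (u' * P') ^ 2 * b ^ 4) := by
      linear_combination (u' * P') ^ 2 * b ^ 4 * hi2
    rw [e1, hk', hz2, e3] at hE
    exact ⟨2 * z2 - i2 * (u' * P') ^ 2 * b ^ 4 - u * (z1 + k + 2 * k * z1), by
      linear_combination hE⟩

/-- case `j = 1` -/
theorem sign1 {u u' P P' f b Y : G} (hu : IsUnit u) (hu' : IsUnit u') (hP : Prm P) (hP' : Prm P')
    (hcop : IsCoprime f b) (hE : (u * la * P) * Y ^ 2 = f ^ 4 - (u' * P') ^ 2 * b ^ 4) :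
    u' ^ 2 = 1 := by
  rcases unit_sq_cases hu' with h | h
  · exact h
  exfalso
  have hP'2 : (u' * P') ^ 2 = -P' ^ 2 := by rw [mul_pow, h]; ring
  have hla : la ∣ f ^ 4 + P' ^ 2 * b ^ 4 := by
    rw [hP'2] at hE
    have : f ^ 4 + P' ^ 2 * b ^ 4 = la * (u * P * Y ^ 2) := by linear_combination -hE
    rw [this]
    exact dvd_mul_right _ _
  have hf : ¬ la ∣ f := by
    intro hf
    have h1 : la ∣ P' ^ 2 * b ^ 4 := by
      have := dvd_sub hla (dvd_pow hf (n := 4) (by norm_num))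
      rwa [add_sub_cancel_left] at this
    rcases la_prime.dvd_or_dvd h1 with h2 | h2
    · exact la_not_dvd_prm hP' (la_prime.dvd_of_dvd_pow h2)
    · exact la_prime.not_isUnit (hcop.isUnit_of_dvd' hf (la_prime.dvd_of_dvd_pow h2))
  have hb : ¬ la ∣ b := by
    intro hb
    have h1 : la ∣ f ^ 4 := by
      have := dvd_sub hla ((dvd_pow hb (n := 4) (by norm_num)).mul_left (P' ^ 2))
      rwa [add_sub_cancel_right] at this
    exact hf (la_prime.dvd_of_dvd_pow h1)
  obtain ⟨z1, hz1⟩ := fourth_mod4 hf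
  obtain ⟨z2, hz2⟩ := fourth_mod4 hb
  obtain ⟨z3, hz3⟩ := prm_sq_mod4 hP'
  rw [hP'2, hz1, hz2, hz3] at hE
  set t : G := z1 + z2 + z3 + 4 * z2 * z3 with ht
  have h1 : (u * la * P) * Y ^ 2 = 2 * (1 + 2 * t) := by
    rw [ht]
    linear_combination hE
  have h2 : (2 : G) = la * (la * ⟨0, -1⟩) := by decide
  have h3 : (u * P) * Y ^ 2 = la * (⟨0, -1⟩ * (1 + 2 * t)) := by
    apply mul_left_cancel₀ la_prime.ne_zero
    have : (la * (la * ⟨0, -1⟩)) * (1 + 2 * t) = 2 * (1 + 2 * t) := by rw [← h2]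
    linear_combination h1 - this
  have h4 : la ∣ Y := by
    have h5 : la ∣ (u * P) * Y ^ 2 := by
      rw [h3]
      exact dvd_mul_right _ _
    rcases la_prime.dvd_or_dvd h5 with h6 | h6
    · rcases la_prime.dvd_or_dvd h6 with h7 | h7
      · exact absurd h7 (not_la_unit hu)
      · exact absurd h7 (la_not_dvd_prm hP)
    · exact la_prime.dvd_of_dvd_pow h6
  obtain ⟨Z, rfl⟩ := h4
  have h5 : la ∣ ⟨0, -1⟩ * (1 + 2 * t) := by
    refine ⟨u * P * Z ^ 2, ?_⟩
    apply mul_left_cancel₀ la_prime.ne_zero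
    linear_combination -h3
  have h6 : la ∣ 1 + 2 * t := by
    rcases la_prime.dvd_or_dvd h5 with h7 | h7
    · exfalso
      rw [la_dvd_iff] at h7
      simp at h7
    · exact h7
  have h7 : la ∣ 1 := by
    have := dvd_sub h6 (la_dvd_two.mul_right t)
    rwa [add_sub_cancel_right] at this
  exact la_prime.not_isUnit (isUnit_of_dvd_one h7)

/-! ## The result -/

theorem sign_sq {u : G} (hu : u ^ 2 = 1) : ∃ e : G, u = e ^ 2 := by
  have : (u - 1) * (u + 1) = 0 := by linear_combination hu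
  rcases mul_eq_zero.1 this with h | h
  · exact ⟨1, by linear_combination h⟩
  · refine ⟨⟨0, 1⟩, ?_⟩
    have h1 : (⟨0, 1⟩ : G) ^ 2 = -1 := by decide
    rw [h1]
    linear_combination h

theorem sqf_D (A : Finset Pr) (p : Pr) : ¬ p.1 * p.1 ∣ la * PA A := by
  classical
  rintro ⟨c, hc⟩
  by_cases hp : p ∈ A
  · have h1 : PA A = p.1 * PA (A.erase p) := by
      unfold PA
      exact (mul_prod_erase A (fun q => q.1) hp).symm
    have h2 : la * PA (A.erase p) = p.1 * c := by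
      apply mul_left_cancel₀ p.2.1.ne_zero
      rw [h1] at hc
      linear_combination hc
    rcases p.2.1.dvd_or_dvd ⟨c, h2⟩ with h3 | h3
    · exact not_dvd_la p h3
    · exact not_dvd_PA (notMem_erase p A) h3
  · have h2 : p.1 ∣ la * PA A := ⟨p.1 * c, by rw [hc]; ring⟩
    rcases p.2.1.dvd_or_dvd h2 with h3 | h3
    · exact not_dvd_la p h3
    · exact not_dvd_PA hp h3

theorem dvd_PA {p : Pr} {A : Finset Pr} (h : p ∈ A) : p.1 ∣ PA A := by
  unfold PA
  exact dvd_prod_of_mem (fun q : Pr => q.1) h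

open Classical in
theorem main {F : Type} [Field F] [Algebra G F] [IsFractionRing G F] (hs : SSUPP)
    (A : Finset Pr) (x y : F) (hy : y ≠ 0)
    (hxy : algebraMap G F (la * PA A) * y ^ 2 = x ^ 3 - x) :
    ∃ (V : Finset Pr) (w : F), V ⊆ A ∧
      (algebraMap G F (la * PA A) * x = algebraMap G F (PA V) * w ^ 2 ∨
        algebraMap G F (la * PA A) * ((x + 1) / (x - 1)) = algebraMap G F (PA V) * w ^ 2) ∧
      (∀ p ∈ V, gt p * ∏ q ∈ A \ V, gs q p = 1) ∧ (∀ p ∈ A \ V, ∏ q ∈ V, gs q p = 1) := by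
  have hm : ∀ p : Pr, ∀ v w : G, qs p.1 (v * w) = qs p.1 v * qs p.1 w := fun p => qs_mul p.2.1 p.2.2
  have hD0 : la * PA A ≠ 0 := mul_ne_zero la_prime.ne_zero (PA_ne A)
  have hDF := A_ne (F := F) hD0
  have hx0 : x ≠ 0 := by
    rintro rfl
    have h1 : algebraMap G F (la * PA A) * y ^ 2 = 0 := by rw [hxy]; ring
    rcases mul_eq_zero.1 h1 with h2 | h2
    · exact hDF h2
    · exact hy (pow_eq_zero_iff (by norm_num) |>.1 h2)
  have hx1 : x - 1 ≠ 0 := by
    intro h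
    have hx : x = 1 := by linear_combination h
    have h1 : algebraMap G F (la * PA A) * y ^ 2 = 0 := by rw [hxy, hx]; ring
    rcases mul_eq_zero.1 h1 with h2 | h2
    · exact hDF h2
    · exact hy (pow_eq_zero_iff (by norm_num) |>.1 h2)
  set DF := algebraMap G F (la * PA A) with hDFdef
  obtain ⟨d, f, b, Y0, hd, hdD, hcop, hf0, hb0, hX, hY0⟩ := decomp0 (F := F) hD0
    (x := DF * x) (y := DF ^ 2 * y) (mul_ne_zero (pow_ne_zero _ hDF) hy)
    (by linear_combination DF ^ 3 * hxy)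
  have hd0 := hd.ne_zero
  obtain ⟨S, u, hSA, hu, hdS⟩ := struct hd hdD
  obtain ⟨u', huu'⟩ := hu.exists_right_inv
  have hu' : IsUnit u' := IsUnit.of_mul_eq_one u (by rw [mul_comm]; exact huu')
  have hPA := PA_sdiff hSA
  have hfb : algebraMap G F f ≠ 0 := A_ne hf0
  have hbb : algebraMap G F b ≠ 0 := A_ne hb0
  rcases hdS with hdS | hdS
  · -- case 0
    have hDD : d * (u' * la * PA (A \ S)) = la * PA A := by
      rw [hdS, ← hPA]
      linear_combination la * PA S * PA (A \ S) * huu'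
    rw [← hDD] at hY0
    obtain ⟨Y, hY⟩ := reduce hd hY0
    have hus : u ^ 2 = 1 := sign0 hu hu' (prm_PA S) (prm_PA (A \ S)) hcop (by rw [← hdS]; exact hY)
    have hus' : u' ^ 2 = 1 := by
      have : (u * u') ^ 2 = 1 := by rw [huu', one_pow]
      rwa [mul_pow, hus, one_mul] at this
    have hL := fun p : Pr => loc hY hcop p (by rw [hDD]; exact sqf_D A p)
    obtain ⟨e, he⟩ := sign_sq hus
    refine ⟨S, algebraMap G F e * (algebraMap G F f / algebraMap G F b), hSA, Or.inl ?_, ?_, ?_⟩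
    · rw [hX, hdS, he, map_mul, map_pow]
      ring
    · intro p hp
      have h1 := (hL p).1 (by rw [hdS]; exact (dvd_PA hp).mul_left _)
      rw [hm, hm, qs_unit p.2.1 hus', one_mul, hs p.1 p.2.1 p.2.2] at h1
      rw [gs_prod]
      unfold gt
      exact_mod_cast h1
    · intro p hp
      have h1 := (hL p).2 ((dvd_PA hp).mul_left _)
      rw [hdS, hm, qs_unit p.2.1 hus, one_mul] at h1
      rw [gs_prod]
      exact_mod_cast h1
  · -- case 1
    have hDD : d * (u' * PA (A \ S)) = la * PA A := by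
      rw [hdS, ← hPA]
      linear_combination la * PA S * PA (A \ S) * huu'
    rw [← hDD] at hY0
    obtain ⟨Y, hY⟩ := reduce hd hY0
    have hus' : u' ^ 2 = 1 := sign1 hu hu' (prm_PA S) (prm_PA (A \ S)) hcop (by rw [← hdS]; exact hY)
    have hus : u ^ 2 = 1 := by
      have : (u * u') ^ 2 = 1 := by rw [huu', one_pow]
      rwa [mul_pow, hus', mul_one] at this
    have hL := fun p : Pr => loc hY hcop p (by rw [hDD]; exact sqf_D A p)
    obtain ⟨e, he⟩ := sign_sq hus'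
    have hAS : A \ (A \ S) = S := by
      rw [sdiff_sdiff_right_self]
      exact inf_eq_right.2 hSA
    refine ⟨A \ S, algebraMap G F e * (DF * y * algebraMap G F b /
      (algebraMap G F f * (x - 1))), sdiff_subset, Or.inr ?_, ?_, ?_⟩
    · have hdF : algebraMap G F d ≠ 0 := A_ne hd0
      have e1 : DF = algebraMap G F d * (algebraMap G F u' * algebraMap G F (PA (A \ S))) := by
        rw [hDFdef, ← hDD, map_mul, map_mul]
      have e2 : algebraMap G F u' = (algebraMap G F e) ^ 2 := by rw [he, map_pow]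
      have e3 : DF * x * (algebraMap G F b) ^ 2 = algebraMap G F d * (algebraMap G F f) ^ 2 := by
        rw [hX]
        field_simp
      -- `f ^ 2 = x b ^ 2 D'`
      have e4 : (algebraMap G F f) ^ 2 =
          x * (algebraMap G F b) ^ 2 * ((algebraMap G F e) ^ 2 * algebraMap G F (PA (A \ S))) := by
        apply mul_left_cancel₀ hdF
        rw [← e3, e1, e2]
        ring
      have e5 : DF * ((x + 1) / (x - 1)) * ((algebraMap G F f) ^ 2 * (x - 1) ^ 2) =
          algebraMap G F (PA (A \ S)) * ((algebraMap G F e) ^ 2 *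
            (DF * y * algebraMap G F b) ^ 2) := by
        have e6 : DF * ((x + 1) / (x - 1)) * ((algebraMap G F f) ^ 2 * (x - 1) ^ 2) =
            DF * (x + 1) * (x - 1) * (algebraMap G F f) ^ 2 := by
          field_simp
        rw [e6, e4]
        linear_combination (-DF * (algebraMap G F b) ^ 2 * ((algebraMap G F e) ^ 2 *
          algebraMap G F (PA (A \ S)))) * hxy
      apply mul_right_cancel₀ (mul_ne_zero (pow_ne_zero 2 hfb) (pow_ne_zero 2 hx1))
      rw [e5]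
      field_simp
    · intro p hp
      have h1 := (hL p).2 ((dvd_PA hp).mul_left _)
      rw [hdS, hm, hm, qs_unit p.2.1 hus, one_mul, hs p.1 p.2.1 p.2.2] at h1
      rw [hAS, gs_prod]
      unfold gt
      exact_mod_cast h1
    · intro p hp
      rw [hAS] at hp
      have h1 := (hL p).1 (by rw [hdS]; exact (dvd_PA hp).mul_left _)
      rw [hm, qs_unit p.2.1 hus', one_mul] at h1
      rw [gs_prod]
      exact_mod_cast h1

theorem t_DSC1 (hs : SSUPP) : SDSC1 := fun A x y hy hxy => main hs A x y hy hxy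

end Pool.Agent.Y547.PP
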